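import Mathlib

set_option autoImplicit false

/-! # Liouville's inequality for vectors of algebraic numbers -/

namespace Pool.Agent.X220.FP

open Finset

theorem liouville_vec (s : ℕ) (α : Fin s → ℝ) (hα : ∀ i, IsAlgebraic ℚ (α i))
    (hind : ∀ (h : Fin s → ℤ) (a : ℤ), ∑ i, (h i : ℝ) * α i = a → h = 0) :
    ∃ (c₀ : ℝ) (τ : ℕ), 0 < c₀ ∧ ∀ h : Fin s → ℤ, h ≠ 0 → ∀ a : ℤ,
      c₀ ≤ (∑ i, |(h i : ℝ)|) ^ τ * |(∑ i, (h i : ℝ) * α i) - a| := by
  classical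
  set K := IntermediateField.adjoin ℚ (Set.range α) with hK
  have : FiniteDimensional ℚ K := IntermediateField.finiteDimensional_adjoin (by
    rintro _ ⟨i, rfl⟩
    exact (hα i).isIntegral)
  let x : Fin s → K := fun i => ⟨α i, IntermediateField.subset_adjoin _ _ ⟨i, rfl⟩⟩
  obtain ⟨y, hy0, hy⟩ := exists_integral_multiples ℤ ℚ (univ.image x)
  have hy' : ∀ i, IsIntegral ℤ ((y : K) * x i) := fun i => by
    have := hy (x i) (mem_image_of_mem _ (mem_univ i))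
    rwa [zsmul_eq_mul] at this
  have hyr : (1 : ℝ) ≤ |(y : ℝ)| := by
    have : (1 : ℤ) ≤ |y| := Int.one_le_abs hy0
    exact_mod_cast this
  -- the bound for the conjugates
  set C : ℝ := 1 + ∑ σ : K →ₐ[ℚ] ℂ, ∑ i, ‖σ (x i)‖ + ∑ i, |α i| with hC
  have hC1 : ∀ (σ : K →ₐ[ℚ] ℂ) i, ‖σ (x i)‖ ≤ C := by
    intro σ i
    have h1 : ‖σ (x i)‖ ≤ ∑ i, ‖σ (x i)‖ :=
      single_le_sum (f := fun i => ‖σ (x i)‖) (fun i _ => norm_nonneg _) (mem_univ i)
    have h2 : ∑ i, ‖σ (x i)‖ ≤ ∑ σ : K →ₐ[ℚ] ℂ, ∑ i, ‖σ (x i)‖ :=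
      single_le_sum (f := fun σ : K →ₐ[ℚ] ℂ => ∑ i, ‖σ (x i)‖) (fun σ _ => sum_nonneg fun i _ => norm_nonneg _) (mem_univ σ)
    have h3 : 0 ≤ ∑ i, |α i| := sum_nonneg fun i _ => abs_nonneg _
    linarith
  have hC2 : ∀ i, |α i| ≤ C := by
    intro i
    have h1 : |α i| ≤ ∑ i, |α i| := single_le_sum (f := fun i => |α i|) (fun i _ => abs_nonneg _) (mem_univ i)
    have h2 : 0 ≤ ∑ σ : K →ₐ[ℚ] ℂ, ∑ i, ‖σ (x i)‖ := sum_nonneg fun σ _ => sum_nonneg fun i _ => norm_nonneg _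
    linarith
  have hC0 : 1 ≤ C := by
    have h1 : 0 ≤ ∑ i, |α i| := sum_nonneg fun i _ => abs_nonneg _
    have h2 : 0 ≤ ∑ σ : K →ₐ[ℚ] ℂ, ∑ i, ‖σ (x i)‖ := sum_nonneg fun σ _ => sum_nonneg fun i _ => norm_nonneg _
    linarith
  set E : ℝ := |(y : ℝ)| * (2 * C + 1) with hE
  have hE1 : 1 ≤ E := by
    rw [hE]; nlinarith
  set D : ℕ := Fintype.card (K →ₐ[ℚ] ℂ) with hD
  refine ⟨min 1 (1 / (|(y : ℝ)| * E ^ D)), D, by positivity, ?_⟩
  intro h hh a
  set S : ℝ := ∑ i, |(h i : ℝ)| with hS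
  have hS1 : 1 ≤ S := by
    obtain ⟨i, hi⟩ : ∃ i, h i ≠ 0 := by
      by_contra hcon
      push Not at hcon
      exact hh (funext hcon)
    have h1 : (1 : ℝ) ≤ |(h i : ℝ)| := by
      have := Int.one_le_abs hi
      exact_mod_cast this
    exact h1.trans (single_le_sum (f := fun i => |(h i : ℝ)|) (fun i _ => abs_nonneg _) (mem_univ i))
  set t : ℝ := |(∑ i, (h i : ℝ) * α i) - a| with ht
  have hSD : 1 ≤ S ^ D := one_le_pow₀ hS1
  rcases le_or_gt 1 t with h1 | h1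
  · refine (min_le_left _ _).trans ?_
    nlinarith
  -- the element
  set β : K := (y : K) * (∑ i, (h i : K) * x i - (a : K)) with hβ
  have hβr : ((β : K) : ℝ) = (y : ℝ) * ((∑ i, (h i : ℝ) * α i) - a) := by
    rw [hβ]
    push_cast
    rfl
  have hne : (∑ i, (h i : ℝ) * α i) - a ≠ 0 := by
    intro h0
    exact hh (hind h a (by linarith))
  have hβ0 : β ≠ 0 := by
    intro h0
    rw [h0] at hβr
    have : (y : ℝ) * ((∑ i, (h i : ℝ) * α i) - a) = 0 := by rw [← hβr]; rfl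
    rcases mul_eq_zero.1 this with h2 | h2
    · exact hy0 (by exact_mod_cast h2)
    · exact hne h2
  have hβint : IsIntegral ℤ β := by
    have e1 : β = ∑ i, (h i : K) * ((y : K) * x i) - (y : K) * (a : K) := by
      rw [hβ, mul_sub, mul_sum]
      congr 1
      refine sum_congr rfl fun i _ => ?_
      ring
    rw [e1]
    refine IsIntegral.sub (IsIntegral.sum _ fun i _ => IsIntegral.mul ?_ (hy' i)) (IsIntegral.mul ?_ ?_)
    · exact isIntegral_algebraMap (R := ℤ) (x := h i)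
    · exact isIntegral_algebraMap (R := ℤ) (x := y)
    · exact isIntegral_algebraMap (R := ℤ) (x := a)
  have hN1 : (1 : ℝ) ≤ ‖((Algebra.norm ℚ β : ℚ) : ℂ)‖ := by
    have h2 : IsIntegral ℤ (Algebra.norm ℚ β) := Algebra.isIntegral_norm ℚ hβint
    obtain ⟨n, hn⟩ := IsIntegrallyClosed.isIntegral_iff.1 h2
    have h3 : Algebra.norm ℚ β ≠ 0 := Algebra.norm_ne_zero_iff.2 hβ0
    have h4 : n ≠ 0 := by
      rintro rfl
      apply h3
      rw [← hn]; simp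
    rw [← hn]
    have h5 : (1 : ℝ) ≤ |(n : ℝ)| := by
      have := Int.one_le_abs h4
      exact_mod_cast this
    simpa using h5
  have hprod : ((Algebra.norm ℚ β : ℚ) : ℂ) = ∏ σ : K →ₐ[ℚ] ℂ, σ β := by
    have := Algebra.norm_eq_prod_embeddings ℚ ℂ β
    rw [← this]
    rfl
  -- the real embedding
  let σ₀ : K →ₐ[ℚ] ℂ := (Complex.ofRealAm.restrictScalars ℚ).comp K.val
  have hσ₀ : ‖σ₀ β‖ = |(y : ℝ)| * t := by
    have : σ₀ β = (((β : K) : ℝ) : ℂ) := rfl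
    rw [this, Complex.norm_real, hβr, Real.norm_eq_abs, abs_mul]
  have ha : |(a : ℝ)| ≤ 1 + C * S := by
    have h2 : |(a : ℝ)| ≤ t + |∑ i, (h i : ℝ) * α i| := by
      have e : (a : ℝ) = (∑ i, (h i : ℝ) * α i) - ((∑ i, (h i : ℝ) * α i) - a) := by ring
      calc |(a : ℝ)| = |(∑ i, (h i : ℝ) * α i) - ((∑ i, (h i : ℝ) * α i) - a)| := by rw [← e]
        _ ≤ |∑ i, (h i : ℝ) * α i| + |(∑ i, (h i : ℝ) * α i) - a| := abs_sub _ _
        _ = _ := by rw [ht]; ring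
    have h3 : |∑ i, (h i : ℝ) * α i| ≤ C * S := by
      rw [hS, mul_sum]
      refine (abs_sum_le_sum_abs _ _).trans (sum_le_sum fun i _ => ?_)
      rw [abs_mul, mul_comm]
      exact mul_le_mul_of_nonneg_right (hC2 i) (abs_nonneg _)
    linarith
  have hbd : ∀ σ : K →ₐ[ℚ] ℂ, ‖σ β‖ ≤ E * S := by
    intro σ
    have e1 : σ β = (y : ℂ) * (∑ i, (h i : ℂ) * σ (x i) - (a : ℂ)) := by
      rw [hβ, map_mul, map_sub, map_sum, map_intCast, map_intCast]
      simp only [map_mul, map_intCast]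
    rw [e1, norm_mul]
    have h2 : ‖∑ i, (h i : ℂ) * σ (x i)‖ ≤ C * S := by
      rw [hS, mul_sum]
      refine (norm_sum_le _ _).trans (sum_le_sum fun i _ => ?_)
      rw [norm_mul, mul_comm, Complex.norm_intCast]
      exact mul_le_mul_of_nonneg_right (hC1 σ i) (abs_nonneg _)
    have h3 : ‖∑ i, (h i : ℂ) * σ (x i) - (a : ℂ)‖ ≤ (2 * C + 1) * S := by
      refine (norm_sub_le _ _).trans ?_
      rw [Complex.norm_intCast]
      nlinarith
    rw [Complex.norm_intCast, hE, mul_assoc]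
    exact mul_le_mul_of_nonneg_left h3 (abs_nonneg _)
  have hES : 1 ≤ E * S := by nlinarith
  have hfin : (1 : ℝ) ≤ (|(y : ℝ)| * t) * (E * S) ^ D := by
    refine hN1.trans ?_
    rw [hprod, norm_prod, ← mul_prod_erase univ _ (mem_univ σ₀), hσ₀]
    apply mul_le_mul_of_nonneg_left _ (by positivity)
    calc ∏ σ ∈ univ.erase σ₀, ‖σ β‖ ≤ ∏ _σ ∈ univ.erase σ₀, (E * S) :=
          prod_le_prod (fun σ _ => norm_nonneg _) fun σ _ => hbd σ
      _ = (E * S) ^ (univ.erase σ₀).card := by rw [prod_const]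
      _ ≤ (E * S) ^ D := by
          apply pow_le_pow_right₀ hES
          exact (card_erase_le).trans (le_of_eq (by rw [card_univ]))
  refine (min_le_right _ _).trans ?_
  have hy1 : 0 < |(y : ℝ)| := by linarith
  rw [div_le_iff₀ (by positivity)]
  rw [mul_pow] at hfin
  calc (1 : ℝ) ≤ |(y : ℝ)| * t * (E ^ D * S ^ D) := hfin
    _ = S ^ D * t * (|(y : ℝ)| * E ^ D) := by ring

end Pool.Agent.X220.FP
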