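import Pool.Agent.X220.FP.Fam
import Pool.Agent.X55.Fam.LinCor

set_option autoImplicit false

/-! # The sieve theorems for the integers with fractional parts in boxes -/

namespace Pool.Agent.X220.FP

open Finset Polynomial
open Pool.Agent.X55.Fam

/-- the vector `(1, α_1, …, α_s)` is of finite type -/
def FT' {s : ℕ} (c₀ : ℝ) (τ : ℕ) (α : Fin s → ℝ) : Prop :=
  ∀ h : Fin s → ℤ, h ≠ 0 → ∀ a : ℤ, c₀ ≤ (∑ i, |(h i : ℝ)|) ^ τ * |(∑ i, h i * α i) - a|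

lemma FT'.ft {s : ℕ} {c₀ : ℝ} {τ : ℕ} {α : Fin s → ℝ} (h : FT' c₀ τ α) : FT c₀ τ α := by
  intro g hg q a hq
  have h1 := h (fun i => q * g i) (by
    intro h0
    apply hg
    funext i
    have := congrFun h0 i
    simp only [Pi.zero_apply] at this
    rcases mul_eq_zero.1 this with h2 | h2
    · exact absurd h2 (by exact_mod_cast (by omega : q ≠ 0))
    · simpa using h2) a
  refine h1.trans (le_of_eq ?_)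
  have e1 : ∑ i, |(((q : ℤ) * g i : ℤ) : ℝ)| = (q : ℝ) * ∑ i, |(g i : ℝ)| := by
    rw [mul_sum]
    refine sum_congr rfl fun i _ => ?_
    push_cast
    rw [abs_mul, Nat.abs_cast]
  have e2 : ∑ i, (((q : ℤ) * g i : ℤ) : ℝ) * α i = q * ∑ i, g i * α i := by
    rw [mul_sum]
    refine sum_congr rfl fun i _ => ?_
    push_cast
    ring
  rw [e1, e2]

/-- all the fractional parts of `P_i(n) - u_i` are less than `ρ_i` -/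
def InBox {s : ℕ} (P : Fin s → ℝ[X]) (u ρ : Fin s → ℝ) (n : ℕ) : Prop :=
  ∀ i, Int.fract ((P i).eval (n : ℝ) - u i) < ρ i

theorem fp_fam (s k τ : ℕ) (hk : 1 ≤ k) (c₀ : ℝ) (hc₀ : 0 < c₀) : ∃ δ₀ : ℝ, 0 < δ₀ ∧ δ₀ ≤ 1 ∧ ∃ H₀ : ℕ,
    ∀ H : ℕ, H₀ ≤ H → ∀ P : Fin s → ℝ[X], (∀ i, (P i).natDegree ≤ k) → FT' c₀ τ (fun i => (P i).coeff k) →
    ∀ u ρ : Fin s → ℝ, (∀ i, (H : ℝ) ^ (-(δ₀ / 2)) ≤ ρ i ∧ ρ i ≤ 1) → ∀ M : ℕ,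
    EqR ⌊(H : ℝ) ^ δ₀⌋₊ M H (InBox P u ρ) (H * ∏ i, ρ i) := by
  obtain ⟨A, X₀, hA, hE⟩ := fp_class s k τ hk c₀ hc₀
  have hAr : (1 : ℝ) ≤ A := by exact_mod_cast hA
  obtain ⟨H₁, hH₁⟩ := floor_big (1 / A) (by positivity) (max X₀ 1)
  refine ⟨1 / A, by positivity, by rw [div_le_one (by linarith)]; exact hAr, H₁, ?_⟩
  intro H hH P hP hFT u ρ hρ M
  obtain ⟨g1, g2, g3⟩ := hH₁ H hH
  set X := ⌊(H : ℝ) ^ (1 / (A : ℝ))⌋₊ with hX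
  have hX0 : X₀ ≤ X := (le_max_left _ _).trans g1
  have hX1 : 1 ≤ X := (le_max_right _ _).trans g1
  have hXr : (0 : ℝ) < X := by exact_mod_cast hX1
  have hHr : (3 : ℝ) ≤ H := by exact_mod_cast g3
  have hXA : X ^ A ≤ H := by
    have h1 : (X : ℝ) ≤ (H : ℝ) ^ (1 / (A : ℝ)) := Nat.floor_le (by positivity)
    have h2 : (X : ℝ) ^ A ≤ H := by
      calc (X : ℝ) ^ A ≤ ((H : ℝ) ^ (1 / (A : ℝ))) ^ A := by gcongr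
        _ = H := by
          rw [← Real.rpow_natCast, ← Real.rpow_mul (by linarith), one_div_mul_cancel (by linarith), Real.rpow_one]
    exact_mod_cast h2
  intro d hd hdX r
  have key := hE X hX0 H hXA P hP hFT.ft u ρ (fun i => by
    refine ⟨le_trans ?_ (hρ i).1, (hρ i).2⟩
    rw [Real.rpow_neg (by linarith), one_div]
    exact inv_anti₀ (by positivity) g2) M d r hd hdX
  refine le_trans (le_of_eq ?_) key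
  congr 3
  refine congrArg _ (congrArg _ ?_)
  ext n
  simp only [mem_filter, InBox, id]

lemma Both.mono {k : ℕ} {F : Fin k → ℕ → ℕ} {p r : ℕ} {δ δ' c C : ℝ} {B M H : ℕ} {R : ℕ → Prop} {N : ℝ}
    (hp : 1 ≤ p) (hδ : δ' ≤ δ) (h : Both F p r δ c C B M H R N) : Both F p r δ' c C B M H R N := by
  refine ⟨fun hM => (h.1 hM).trans ?_, h.2⟩
  have hsub : {n : ℕ | M < n ∧ n ≤ M + H ∧ R n ∧ ∀ i, Good r ((p : ℝ) ^ δ) (F i n)} ⊆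
      {n : ℕ | M < n ∧ n ≤ M + H ∧ R n ∧ ∀ i, Good r ((p : ℝ) ^ δ') (F i n)} := by
    rintro n ⟨h1, h2, h3, h4⟩
    refine ⟨h1, h2, h3, fun i => ⟨(h4 i).1, (h4 i).2.1, fun q hq hd => lt_of_le_of_lt ?_ ((h4 i).2.2 q hq hd)⟩⟩
    exact Real.rpow_le_rpow_of_exponent_le (by exact_mod_cast hp) hδ
  exact_mod_cast Set.ncard_le_ncard hsub ((Set.finite_Iic (M + H)).subset fun n hn => hn.2.1)

lemma BothL.mono {k : ℕ} {a b : Fin k → ℤ} {p r : ℕ} {δ δ' c C : ℝ} {B M H : ℕ} {R : ℕ → Prop} {N : ℝ}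
    (hp : 1 ≤ p) (hδ : δ' ≤ δ) (h : BothL a b p r δ c C B M H R N) : BothL a b p r δ' c C B M H R N := by
  refine ⟨fun hM h1 h2 => (h.1 hM h1 h2).trans ?_, h.2⟩
  have hsub : {n : ℕ | M < n ∧ n ≤ M + H ∧ R n ∧ ∀ i, Good r ((p : ℝ) ^ δ) (a i * n + b i).natAbs} ⊆
      {n : ℕ | M < n ∧ n ≤ M + H ∧ R n ∧ ∀ i, Good r ((p : ℝ) ^ δ') (a i * n + b i).natAbs} := by
    rintro n ⟨h1, h2, h3, h4⟩
    refine ⟨h1, h2, h3, fun i => ⟨(h4 i).1, (h4 i).2.1, fun q hq hd => lt_of_le_of_lt ?_ ((h4 i).2.2 q hq hd)⟩⟩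
    exact Real.rpow_le_rpow_of_exponent_le (by exact_mod_cast hp) hδ
  exact_mod_cast Set.ncard_le_ncard hsub ((Set.finite_Iic (M + H)).subset fun n hn => hn.2.1)

lemma box_ok {s H : ℕ} {δ δ₀ : ℝ} (hH : 1 ≤ H) (hδ : δ ≤ δ₀ / 2) {ρ : Fin s → ℝ}
    (h : ∀ i, (H : ℝ) ^ (-δ) ≤ ρ i ∧ ρ i ≤ 1) : (∀ i, (H : ℝ) ^ (-(δ₀ / 2)) ≤ ρ i ∧ ρ i ≤ 1) ∧
      0 ≤ (H : ℝ) * ∏ i, ρ i := by
  refine ⟨fun i => ⟨le_trans ?_ (h i).1, (h i).2⟩, mul_nonneg (Nat.cast_nonneg _) (prod_nonneg fun i _ =>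
    le_trans (by positivity) (h i).1)⟩
  exact Real.rpow_le_rpow_of_exponent_le (by exact_mod_cast hH) (by linarith)

section

variable (s k τ : ℕ) (hk : 1 ≤ k) (c₀ : ℝ) (hc₀ : 0 < c₀)

include hk hc₀

theorem fp_both {m : ℕ} {f : Fin m → ℤ[X]} (h : Sys m f) (F : Fin m → ℕ → ℕ)
    (hF : ∀ (i : Fin m) (n : ℕ), ((f i).eval (n : ℤ)).natAbs = F i n) (B : ℕ) :
    ∃ (r : ℕ) (δ c C : ℝ) (H₀ : ℕ), 0 < δ ∧ 0 < c ∧ 0 < C ∧ ∀ H : ℕ, H₀ ≤ H →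
    ∀ P : Fin s → ℝ[X], (∀ i, (P i).natDegree ≤ k) → FT' c₀ τ (fun i => (P i).coeff k) →
    ∀ u ρ : Fin s → ℝ, (∀ i, (H : ℝ) ^ (-δ) ≤ ρ i ∧ ρ i ≤ 1) → ∀ M : ℕ,
    Both F H r δ c C B M H (InBox P u ρ) (H * ∏ i, ρ i) := by
  obtain ⟨δ₀, h1, h2, H1, h3⟩ := fp_fam s k τ hk c₀ hc₀
  obtain ⟨r, δ, c, C, T₀, hδ, hc, hC, hb⟩ := both_of h F hF δ₀ h1 B
  refine ⟨r, min δ (δ₀ / 2), c, C, max (max H1 T₀) 1, by positivity, hc, hC, ?_⟩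
  intro H hH P hP hFT u ρ hρ M
  have g1 : H1 ≤ H := ((le_max_left _ _).trans (le_max_left _ _)).trans hH
  have g2 : T₀ ≤ H := ((le_max_right _ _).trans (le_max_left _ _)).trans hH
  have g3 : 1 ≤ H := (le_max_right _ _).trans hH
  obtain ⟨g4, g5⟩ := box_ok g3 (min_le_right δ (δ₀ / 2)) hρ
  exact Both.mono g3 (min_le_left _ _) (hb H g2 M H _ _ g5 (h3 H g1 P hP hFT u ρ g4 M))

theorem fp_asym {m : ℕ} {f : Fin m → ℤ[X]} (h : Sys m f) (F : Fin m → ℕ → ℕ)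
    (hF : ∀ (i : Fin m) (n : ℕ), ((f i).eval (n : ℤ)).natAbs = F i n) (η : ℝ) (hη : 0 < η) :
    ∃ (δ : ℝ) (H₀ : ℕ), 0 < δ ∧ ∀ H : ℕ, H₀ ≤ H →
    ∀ P : Fin s → ℝ[X], (∀ i, (P i).natDegree ≤ k) → FT' c₀ τ (fun i => (P i).coeff k) →
    ∀ u ρ : Fin s → ℝ, (∀ i, (H : ℝ) ^ (-δ) ≤ ρ i ∧ ρ i ≤ 1) → ∀ M y : ℕ, 3 ≤ y → (y : ℝ) ≤ (H : ℝ) ^ δ →
    Asym F η M H y (InBox P u ρ) (H * ∏ i, ρ i) := by
  obtain ⟨δ₀, h1, h2, H1, h3⟩ := fp_fam s k τ hk c₀ hc₀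
  obtain ⟨δ, T₀, hδ, hb⟩ := asym_of h F hF δ₀ η h1 hη
  refine ⟨min δ (δ₀ / 2), max (max H1 T₀) 1, by positivity, ?_⟩
  intro H hH P hP hFT u ρ hρ M y hy hyH
  have g1 : H1 ≤ H := ((le_max_left _ _).trans (le_max_left _ _)).trans hH
  have g2 : T₀ ≤ H := ((le_max_right _ _).trans (le_max_left _ _)).trans hH
  have g3 : 1 ≤ H := (le_max_right _ _).trans hH
  obtain ⟨g4, g5⟩ := box_ok g3 (min_le_right δ (δ₀ / 2)) hρ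
  exact hb H g2 M H _ _ g5 (h3 H g1 P hP hFT u ρ g4 M) y hy
    (hyH.trans (Real.rpow_le_rpow_of_exponent_le (by exact_mod_cast g3) (min_le_left _ _)))

theorem fp_lin (m : ℕ) (hm : 1 ≤ m) (B : ℕ) :
    ∃ (r : ℕ) (δ c C : ℝ) (H₀ : ℕ), 0 < δ ∧ 0 < c ∧ 0 < C ∧ ∀ H : ℕ, H₀ ≤ H → ∀ (a b : Fin m → ℤ), (∀ i, a i ≠ 0) →
    (∀ q : ℕ, q.Prime → ∃ n : ℕ, ∀ i, ¬ (q : ℤ) ∣ a i * n + b i) →
    ∀ P : Fin s → ℝ[X], (∀ i, (P i).natDegree ≤ k) → FT' c₀ τ (fun i => (P i).coeff k) →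
    ∀ u ρ : Fin s → ℝ, (∀ i, (H : ℝ) ^ (-δ) ≤ ρ i ∧ ρ i ≤ 1) → ∀ M : ℕ,
    BothL a b H r δ c C B M H (InBox P u ρ) (H * ∏ i, ρ i) := by
  obtain ⟨δ₀, h1, h2, H1, h3⟩ := fp_fam s k τ hk c₀ hc₀
  obtain ⟨r, δ, c, C, T₀, hδ, hc, hC, hb⟩ := lin_of m hm δ₀ h1 h2 B
  refine ⟨r, min δ (δ₀ / 2), c, C, max (max H1 T₀) 1, by positivity, hc, hC, ?_⟩
  intro H hH a b ha hadm P hP hFT u ρ hρ M
  have g1 : H1 ≤ H := ((le_max_left _ _).trans (le_max_left _ _)).trans hH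
  have g2 : T₀ ≤ H := ((le_max_right _ _).trans (le_max_left _ _)).trans hH
  have g3 : 1 ≤ H := (le_max_right _ _).trans hH
  obtain ⟨g4, g5⟩ := box_ok g3 (min_le_right δ (δ₀ / 2)) hρ
  exact BothL.mono g3 (min_le_left _ _) (hb H g2 a b ha hadm M H _ _ g5 (h3 H g1 P hP hFT u ρ g4 M))

theorem fp_linA (m : ℕ) (hm : 1 ≤ m) (η : ℝ) (hη : 0 < η) :
    ∃ (δ : ℝ) (H₀ : ℕ), 0 < δ ∧ ∀ H : ℕ, H₀ ≤ H → ∀ (a b : Fin m → ℤ),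
    (∀ q : ℕ, q.Prime → ∃ n : ℕ, ∀ i, ¬ (q : ℤ) ∣ a i * n + b i) →
    ∀ P : Fin s → ℝ[X], (∀ i, (P i).natDegree ≤ k) → FT' c₀ τ (fun i => (P i).coeff k) →
    ∀ u ρ : Fin s → ℝ, (∀ i, (H : ℝ) ^ (-δ) ≤ ρ i ∧ ρ i ≤ 1) → ∀ M y : ℕ, 3 ≤ y → (y : ℝ) ≤ (H : ℝ) ^ δ →
    AsL a b η M H y (InBox P u ρ) (H * ∏ i, ρ i) := by
  obtain ⟨δ₀, h1, h2, H1, h3⟩ := fp_fam s k τ hk c₀ hc₀
  obtain ⟨δ, T₀, hδ, hb⟩ := linA_of m hm δ₀ η h1 hη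
  refine ⟨min δ (δ₀ / 2), max (max H1 T₀) 1, by positivity, ?_⟩
  intro H hH a b hadm P hP hFT u ρ hρ M y hy hyH
  have g1 : H1 ≤ H := ((le_max_left _ _).trans (le_max_left _ _)).trans hH
  have g2 : T₀ ≤ H := ((le_max_right _ _).trans (le_max_left _ _)).trans hH
  have g3 : 1 ≤ H := (le_max_right _ _).trans hH
  obtain ⟨g4, g5⟩ := box_ok g3 (min_le_right δ (δ₀ / 2)) hρ
  exact hb H g2 a b hadm M H _ _ g5 (h3 H g1 P hP hFT u ρ g4 M) y hy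
    (hyH.trans (Real.rpow_le_rpow_of_exponent_le (by exact_mod_cast g3) (min_le_left _ _)))

end

end Pool.Agent.X220.FP
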