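import Pool.Agent.X220.FP.Phase

set_option autoImplicit false

/-! # Counting points in boxes modulo one -/

namespace Pool.Agent.X220.FP

open Finset
open Pool.Agent.X121.AB (be be_approx Pn fract_sub_eq)
open Pool.Agent.Helper602.MK (ee)

/-- combination of four Bernoulli functions -/
noncomputable def FF (κ w : ℝ) (σ a : Fin 4 → ℝ) (t : ℝ) : ℝ := κ + (∑ k, σ k * be (t - a k)) / (2 * w)

lemma ee_sum {ι : Type*} (S : Finset ι) (f : ι → ℝ) : ee (∑ i ∈ S, f i) = ∏ i ∈ S, ee (f i) := by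
  classical
  induction S using Finset.induction_on with
  | empty => simp [ee_zero']
  | insert i S hi ih => rw [sum_insert hi, prod_insert hi, ee_add', ih]

theorem sum_prod (s N L : ℕ) (hL : 1 ≤ L) (y : ℕ → Fin s → ℝ) (Z : ℝ) (hZ : 0 < Z)
    (hy : ∀ h : Fin s → ℤ, h ≠ 0 → (∀ i, |h i| ≤ (L : ℤ)) → Z * ‖∑ m ∈ range N, ee (∑ i, h i * y m i)‖ ≤ N)
    (w : ℝ) (hw : 0 < w) (hw1 : w ≤ 1) (κ : Fin s → ℝ) (σ a : Fin s → Fin 4 → ℝ) (hσ : ∀ i k, |σ i k| = 1)
    (hκ : ∀ i, |κ i| ≤ 2) (hF : ∀ i t, |FF (κ i) w (σ i) (a i) t| ≤ 3) :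
    |∑ m ∈ range N, ∏ i, FF (κ i) w (σ i) (a i) (y m i) - N * ∏ i, κ i| ≤
      N * (s * (2 + 1 / w) ^ s * (1 / (w * L)) + (2 + 1 / w) ^ s / Z) := by
  classical
  set D : ℝ := 2 + 1 / w with hD
  have hw1' : 1 ≤ 1 / w := by rw [le_div_iff₀ hw]; linarith
  have hD3 : 3 ≤ D := by rw [hD]; linarith
  set c : Fin s → ℤ → ℂ := fun i j => cf (κ i) w (σ i) (a i) j with hc
  set G : Fin s → ℝ → ℂ := fun i t => ∑ j ∈ Icc (-(L : ℤ)) L, c i j * ee (j * t) with hG
  have hcn : ∀ i, ∑ j ∈ Icc (-(L : ℤ)) L, ‖c i j‖ ≤ D := fun i =>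
    (cf_norm L hw (κ i) (σ i) (a i) (hσ i)).trans (by rw [hD]; linarith [hκ i])
  have hGn : ∀ i t, ‖G i t‖ ≤ D := by
    intro i t
    refine (norm_sum_le _ _).trans (le_trans (le_of_eq ?_) (hcn i))
    exact sum_congr rfl fun j _ => by rw [norm_mul, ee_norm, mul_one]
  have h1 : ∀ m, ‖∏ i, ((FF (κ i) w (σ i) (a i) (y m i) : ℝ) : ℂ) - ∏ i, G i (y m i)‖ ≤ s * D ^ s * (1 / (w * L)) := by
    intro m
    have := prod_close (univ : Finset (Fin s)) (fun i => ((FF (κ i) w (σ i) (a i) (y m i) : ℝ) : ℂ))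
      (fun i => G i (y m i)) (D := D) (ε := 1 / (w * L)) (by linarith) (by positivity)
      (fun i _ => by
        show ‖((FF (κ i) w (σ i) (a i) (y m i) : ℝ) : ℂ)‖ ≤ D
        rw [Complex.norm_real, Real.norm_eq_abs]; exact (hF i _).trans hD3)
      (fun i _ => hGn i _) (fun i _ => cf_approx hL hw (κ i) (σ i) (a i) (hσ i) _)
    rwa [card_univ, Fintype.card_fin] at this
  -- expand the product
  have h2 : ∑ m ∈ range N, ∏ i, G i (y m i) =
      ∑ J ∈ Fintype.piFinset (fun _ : Fin s => Icc (-(L : ℤ)) L), (∏ i, c i (J i)) *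
        ∑ m ∈ range N, ee (∑ i, J i * y m i) := by
    simp only [hG]
    have e1 : ∀ m ∈ range N, ∏ i, ∑ j ∈ Icc (-(L : ℤ)) L, c i j * ee (j * y m i) =
        ∑ J ∈ Fintype.piFinset (fun _ : Fin s => Icc (-(L : ℤ)) L), (∏ i, c i (J i)) * ee (∑ i, J i * y m i) := by
      intro m _
      rw [prod_univ_sum]
      apply sum_congr rfl
      intro J _
      rw [prod_mul_distrib, ee_sum]
    rw [sum_congr rfl e1, sum_comm]
    apply sum_congr rfl
    intro J _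
    rw [mul_sum]
  have h3 : ‖∑ m ∈ range N, ∏ i, G i (y m i) - N * ∏ i, (κ i : ℂ)‖ ≤ D ^ s * (N / Z) := by
    rw [h2, ← sum_erase_add _ _ (show (0 : Fin s → ℤ) ∈ Fintype.piFinset (fun _ : Fin s => Icc (-(L : ℤ)) L) by
      rw [Fintype.mem_piFinset]; intro i; rw [mem_Icc]; simp)]
    have e0 : (∏ i, c i ((0 : Fin s → ℤ) i)) * ∑ m ∈ range N, ee (∑ i, ((0 : Fin s → ℤ) i : ℤ) * y m i) =
        N * ∏ i, (κ i : ℂ) := by
      simp only [Pi.zero_apply, Int.cast_zero, zero_mul, sum_const_zero, ee_zero', sum_const, card_range,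
        nsmul_eq_mul, mul_one, hc, cf_zero]
      ring
    rw [e0, add_sub_cancel_right]
    refine (norm_sum_le _ _).trans ?_
    have e1 : ∀ J ∈ (Fintype.piFinset (fun _ : Fin s => Icc (-(L : ℤ)) L)).erase 0,
        ‖(∏ i, c i (J i)) * ∑ m ∈ range N, ee (∑ i, J i * y m i)‖ ≤ (∏ i, ‖c i (J i)‖) * (N / Z) := by
      intro J hJ
      rw [mem_erase, Fintype.mem_piFinset] at hJ
      rw [norm_mul, norm_prod]
      have := hy J hJ.1 fun i => by
        have := hJ.2 i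
        rw [mem_Icc] at this
        rw [abs_le]; exact this
      have h5 : ‖∑ m ∈ range N, ee (∑ i, J i * y m i)‖ ≤ N / Z := by
        rw [le_div_iff₀ hZ]; linarith
      gcongr
    refine (sum_le_sum e1).trans ?_
    rw [← sum_mul]
    have e2 : ∑ J ∈ (Fintype.piFinset (fun _ : Fin s => Icc (-(L : ℤ)) L)).erase 0, ∏ i, ‖c i (J i)‖ ≤ D ^ s := by
      calc _ ≤ ∑ J ∈ Fintype.piFinset (fun _ : Fin s => Icc (-(L : ℤ)) L), ∏ i, ‖c i (J i)‖ :=
            sum_le_sum_of_subset_of_nonneg (erase_subset _ _) fun J _ _ => prod_nonneg fun i _ => norm_nonneg _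
        _ = ∏ i, ∑ j ∈ Icc (-(L : ℤ)) L, ‖c i j‖ := by rw [prod_univ_sum]
        _ ≤ ∏ _i : Fin s, D := prod_le_prod (fun i _ => sum_nonneg fun j _ => norm_nonneg _) fun i _ => hcn i
        _ = D ^ s := by rw [prod_const, card_univ, Fintype.card_fin]
    exact mul_le_mul_of_nonneg_right e2 (by positivity)
  have h4 : ‖∑ m ∈ range N, ∏ i, ((FF (κ i) w (σ i) (a i) (y m i) : ℝ) : ℂ) - ∑ m ∈ range N, ∏ i, G i (y m i)‖ ≤
      N * (s * D ^ s * (1 / (w * L))) := by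
    rw [← sum_sub_distrib]
    refine (norm_sum_le _ _).trans ((sum_le_card_nsmul _ _ _ fun m _ => h1 m).trans ?_)
    rw [card_range, nsmul_eq_mul]
  have h5 : ((∑ m ∈ range N, ∏ i, FF (κ i) w (σ i) (a i) (y m i) - N * ∏ i, κ i : ℝ) : ℂ) =
      (∑ m ∈ range N, ∏ i, ((FF (κ i) w (σ i) (a i) (y m i) : ℝ) : ℂ) - ∑ m ∈ range N, ∏ i, G i (y m i)) +
      (∑ m ∈ range N, ∏ i, G i (y m i) - N * ∏ i, (κ i : ℂ)) := by
    push_cast; ring
  rw [← Real.norm_eq_abs, ← Complex.norm_real, h5]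
  refine (norm_add_le _ _).trans ((add_le_add h4 h3).trans (le_of_eq ?_))
  ring

/-- shifts and signs of the majorant -/
def sg : Fin 4 → ℝ := ![1, -1, -1, 1]

noncomputable def aU (w u ρ : ℝ) : Fin 4 → ℝ := ![u, u - w, u + ρ + w, u + ρ]

noncomputable def aL (w u ρ : ℝ) : Fin 4 → ℝ := ![u + w, u, u + ρ, u + ρ - w]

lemma sg_abs (k : Fin 4) : |sg k| = 1 := by
  fin_cases k <;> simp [sg]

lemma FF_up (w u ρ t : ℝ) : FF (ρ + w) w sg (aU w u ρ) t = up w u ρ t := by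
  unfold FF up sg aU
  rw [Fin.sum_univ_four]
  simp only [Matrix.cons_val_zero, Matrix.cons_val_one, Matrix.cons_val]
  rw [show t - (u - w) = t - u + w by ring, show t - (u + ρ + w) = t - u - ρ - w by ring,
    show t - (u + ρ) = t - u - ρ by ring]
  ring

lemma FF_lo (w u ρ t : ℝ) : FF (ρ - w) w sg (aL w u ρ) t = lo w u ρ t := by
  unfold FF lo sg aL
  rw [Fin.sum_univ_four]
  simp only [Matrix.cons_val_zero, Matrix.cons_val_one, Matrix.cons_val]
  rw [show t - (u + w) = t - u - w by ring, show t - (u + ρ) = t - u - ρ by ring,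
    show t - (u + ρ - w) = t - u - ρ + w by ring]
  ring

lemma prod_close_real {s : ℕ} (f g : Fin s → ℝ) {ε : ℝ} (hε : 0 ≤ ε)
    (hf : ∀ i, |f i| ≤ 2) (hg : ∀ i, |g i| ≤ 2) (h : ∀ i, |f i - g i| ≤ ε) :
    |∏ i, f i - ∏ i, g i| ≤ s * 2 ^ s * ε := by
  have := prod_close (univ : Finset (Fin s)) (fun i => (f i : ℂ)) (fun i => (g i : ℂ)) (D := 2) (ε := ε)
    (by norm_num) hε (fun i _ => by
      show ‖((f i : ℝ) : ℂ)‖ ≤ 2
      rw [Complex.norm_real]; exact hf i) (fun i _ => by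
      show ‖((g i : ℝ) : ℂ)‖ ≤ 2
      rw [Complex.norm_real]; exact hg i)
    (fun i _ => by
      show ‖((f i : ℝ) : ℂ) - ((g i : ℝ) : ℂ)‖ ≤ ε
      rw [← Complex.ofReal_sub, Complex.norm_real]; exact h i)
  rw [card_univ, Fintype.card_fin] at this
  rw [← Real.norm_eq_abs, ← Complex.norm_real]
  push_cast
  exact this

open Classical in
theorem count_box (s N L : ℕ) (hL : 1 ≤ L) (y : ℕ → Fin s → ℝ) (Z : ℝ) (hZ : 0 < Z)
    (hy : ∀ h : Fin s → ℤ, h ≠ 0 → (∀ i, |h i| ≤ (L : ℤ)) → Z * ‖∑ m ∈ range N, ee (∑ i, h i * y m i)‖ ≤ N)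
    (w : ℝ) (hw : 0 < w) (u ρ : Fin s → ℝ) (hρ : ∀ i, 2 * w ≤ ρ i ∧ ρ i ≤ 1) (hw1 : w ≤ 1 / 2) :
    |(((range N).filter (fun m => ∀ i, Int.fract (y m i - u i) < ρ i)).card : ℝ) - N * ∏ i, ρ i| ≤
      N * (s * (2 + 1 / w) ^ s * (1 / (w * L)) + (2 + 1 / w) ^ s / Z + s * 2 ^ s * w) := by
  have hc : (((range N).filter (fun m => ∀ i, Int.fract (y m i - u i) < ρ i)).card : ℝ) =
      ∑ m ∈ range N, ∏ i, I1 (u i) (ρ i) (y m i) := by
    rw [card_filter]
    push_cast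
    apply sum_congr rfl
    intro m _
    unfold I1
    rw [prod_ite_zero]
    simp
  have hρ0 : ∀ i, 0 ≤ ρ i := fun i => by linarith [(hρ i).1]
  have hρ1 : ∀ i, ρ i ≤ 1 := fun i => (hρ i).2
  have U := sum_prod s N L hL y Z hZ hy w hw (by linarith) (fun i => ρ i + w) (fun _ => sg)
    (fun i => aU w (u i) (ρ i)) (fun i k => sg_abs k) (fun i => by
      show |ρ i + w| ≤ 2
      rw [abs_le]; constructor <;> linarith [hρ0 i, hρ1 i]) (fun i t => by
      rw [FF_up, abs_le]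
      have h1 := ind_le_up hw (by linarith : w ≤ 1) (hρ0 i) (hρ1 i) (u := u i) (t := t)
      have h2 := ind_nonneg (u i) (ρ i) t
      have h3 := up_le hw (by linarith : w ≤ 1) (hρ0 i) (hρ1 i) (u := u i) (t := t)
      constructor <;> linarith)
  have Lo := sum_prod s N L hL y Z hZ hy w hw (by linarith) (fun i => ρ i - w) (fun _ => sg)
    (fun i => aL w (u i) (ρ i)) (fun i k => sg_abs k) (fun i => by
      show |ρ i - w| ≤ 2
      rw [abs_le]; constructor <;> linarith [hρ0 i, hρ1 i]) (fun i t => by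
      rw [FF_lo, abs_le]
      have h1 := lo_le_ind hw (by linarith : w ≤ 1) (hρ0 i) (hρ1 i) (u := u i) (t := t)
      have h2 := ind_le_one (u i) (ρ i) t
      have h3 := lo_nonneg hw (hρ i).1 (hρ1 i) (u := u i) (t := t)
      constructor <;> linarith)
  simp only [FF_up] at U
  simp only [FF_lo] at Lo
  have hPU := prod_close_real (fun i => ρ i + w) ρ (ε := w) hw.le (fun i => by
      rw [abs_le]; constructor <;> linarith [hρ0 i, hρ1 i]) (fun i => by
      rw [abs_le]; constructor <;> linarith [hρ0 i, hρ1 i]) (fun i => by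
      rw [add_sub_cancel_left, abs_of_pos hw])
  have hPL := prod_close_real (fun i => ρ i - w) ρ (ε := w) hw.le (fun i => by
      rw [abs_le]; constructor <;> linarith [hρ0 i, hρ1 i]) (fun i => by
      rw [abs_le]; constructor <;> linarith [hρ0 i, hρ1 i]) (fun i => by
      rw [sub_sub_cancel_left, abs_neg, abs_of_pos hw])
  have a1 : ∑ m ∈ range N, ∏ i, I1 (u i) (ρ i) (y m i) ≤ ∑ m ∈ range N, ∏ i, up w (u i) (ρ i) (y m i) :=
    sum_le_sum fun m _ => prod_le_prod (fun i _ => ind_nonneg _ _ _) fun i _ =>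
      ind_le_up hw (by linarith) (hρ0 i) (hρ1 i)
  have a2 : ∑ m ∈ range N, ∏ i, lo w (u i) (ρ i) (y m i) ≤ ∑ m ∈ range N, ∏ i, I1 (u i) (ρ i) (y m i) :=
    sum_le_sum fun m _ => prod_le_prod (fun i _ => lo_nonneg hw (hρ i).1 (hρ1 i)) fun i _ =>
      lo_le_ind hw (by linarith) (hρ0 i) (hρ1 i)
  rw [hc]
  have hN : (0 : ℝ) ≤ N := by positivity
  rw [abs_le] at U Lo hPU hPL ⊢
  have b1 : (N : ℝ) * ∏ i, (ρ i + w) ≤ N * (∏ i, ρ i + s * 2 ^ s * w) := by
    apply mul_le_mul_of_nonneg_left _ hN; linarith [hPU.2]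
  have b2 : (N : ℝ) * (∏ i, ρ i - s * 2 ^ s * w) ≤ N * ∏ i, (ρ i - w) := by
    apply mul_le_mul_of_nonneg_left _ hN; linarith [hPL.1]
  constructor
  · linarith [Lo.1]
  · linarith [U.2]

end Pool.Agent.X220.FP
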