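import Pool.Agent.X220.FP.Trig

set_option autoImplicit false

/-! # Weyl sums over progressions for a vector of finite type -/

namespace Pool.Agent.X220.FP

open Finset Polynomial
open Pool.Agent.H373R2.NB (Ph IW IW_all)
open Pool.Agent.Helper602.MK (ee)

lemma Ph_real (d : ℕ) : ∀ f : ℝ[X], f.natDegree ≤ d →
    Ph d ((d.factorial : ℝ) * f.coeff d) (fun n => f.eval (n : ℝ)) := by
  induction d with
  | zero =>
    intro f hf n
    have h1 : f = C (f.coeff 0) := eq_C_of_natDegree_le_zero hf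
    have h2 : f.eval (n : ℝ) = f.coeff 0 := by
      conv_lhs => rw [h1]
      rw [eval_C]
    show f.eval (n : ℝ) = _
    rw [h2]; simp
  | succ d ih =>
    intro f hf h
    set g : ℝ[X] := taylor (h : ℝ) f - f with hg
    have hcoef : ∀ j, d ≤ j → (taylor (h : ℝ) f).coeff j = f.coeff j + (if j = d then ((d : ℝ) + 1) * f.coeff (d + 1) * h else 0) := by
      intro j hj
      rw [taylor_coeff]
      have h1 : (hasseDeriv j f).natDegree < 2 := by
        have := natDegree_hasseDeriv_le f j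
        omega
      rw [eval_eq_sum_range' h1, sum_range_succ, sum_range_succ, sum_range_zero, hasseDeriv_coeff, hasseDeriv_coeff]
      rcases eq_or_ne j d with h2 | h2
      · subst h2
        rw [if_pos rfl, zero_add, zero_add, Nat.choose_self, add_comm 1 j, Nat.choose_succ_self_right]
        push_cast
        ring
      · rw [if_neg h2]
        have h3 : f.coeff (1 + j) = 0 := coeff_eq_zero_of_natDegree_lt (by omega)
        rw [h3, zero_add, zero_add, Nat.choose_self]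
        push_cast
        ring
    have hgd : g.natDegree ≤ d := by
      rw [natDegree_le_iff_coeff_eq_zero]
      intro j hj
      rw [hg, coeff_sub, hcoef j (by omega), if_neg (by omega)]
      ring
    have hgc : g.coeff d = ((d : ℝ) + 1) * f.coeff (d + 1) * h := by
      rw [hg, coeff_sub, hcoef d le_rfl, if_pos rfl]; ring
    have h1 := ih g hgd
    have h2 : (fun n : ℕ => g.eval (n : ℝ)) = fun n : ℕ => f.eval ((n + h : ℕ) : ℝ) - f.eval (n : ℝ) := by
      funext n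
      rw [hg, eval_sub, taylor_eval]
      push_cast
      ring_nf
    rw [h2, hgc] at h1
    have h3 : (d.factorial : ℝ) * (((d : ℝ) + 1) * f.coeff (d + 1) * h) =
        (h : ℝ) * (((d + 1).factorial : ℝ) * f.coeff (d + 1)) := by
      rw [Nat.factorial_succ]; push_cast; ring
    rw [h3] at h1
    exact h1

lemma Ph_affine (k : ℕ) : ∀ (β : ℝ) (φ : ℕ → ℝ), Ph k β φ → ∀ n0 d : ℕ,
    Ph k ((d : ℝ) ^ k * β) (fun m => φ (n0 + d * m)) := by
  induction k with
  | zero =>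
    intro β φ h n0 d m
    show φ (n0 + d * m) = _
    rw [h]; simp
  | succ k ih =>
    intro β φ h n0 d j
    have h1 := h (d * j)
    have h2 := ih _ _ h1 n0 d
    have e : (d : ℝ) ^ k * (((d * j : ℕ) : ℝ) * β) = (j : ℝ) * ((d : ℝ) ^ (k + 1) * β) := by push_cast; ring
    rw [e] at h2
    convert h2 using 2 with m
    congr 2
    ring_nf

/-- the vector `(1, α_1, …, α_s)` is of finite type -/
def FT {s : ℕ} (c₀ : ℝ) (τ : ℕ) (α : Fin s → ℝ) : Prop :=
  ∀ h : Fin s → ℤ, h ≠ 0 → ∀ (q : ℕ) (a : ℤ), 1 ≤ q →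
    c₀ ≤ ((q : ℝ) * ∑ i, |(h i : ℝ)|) ^ τ * |q * (∑ i, h i * α i) - a|

/-- Weyl sums over progressions -/
theorem weyl_prog (s k τ b e : ℕ) (hk : 1 ≤ k) (c₀ : ℝ) (hc₀ : 0 < c₀) : ∃ (A X₀ : ℕ), ∀ X : ℕ, X₀ ≤ X →
    ∀ N : ℕ, X ^ A ≤ N → ∀ P : Fin s → ℝ[X], (∀ i, (P i).natDegree ≤ k) → FT c₀ τ (fun i => (P i).coeff k) →
    ∀ h : Fin s → ℤ, h ≠ 0 → (∀ i, |h i| ≤ (X : ℤ) ^ b) → ∀ n0 d : ℕ, 1 ≤ d → d ≤ X →
    (X : ℝ) ^ e * ‖∑ m ∈ range N, ee (∑ i, h i * (P i).eval ((n0 + d * m : ℕ) : ℝ))‖ ≤ N := by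
  obtain ⟨c, m, hc, hI⟩ := IW_all k hk
  obtain ⟨X₁, hX₁⟩ := exists_nat_gt (((c : ℝ) * k.factorial * s) ^ τ * c / c₀)
  refine ⟨(e * m + k + b) * τ + e * m + 1, max X₁ 2, fun X hX N hN P hP hFT h hh hhb n0 d hd hdX => ?_⟩
  by_contra hcon
  push Not at hcon
  have hX2 : 2 ≤ X := (le_max_right _ _).trans hX
  have hXr : (1 : ℝ) ≤ X := by exact_mod_cast (by omega : 1 ≤ X)
  have hX0 : (0 : ℝ) < X := by linarith
  have hN1 : 1 ≤ N := le_trans (Nat.one_le_pow _ _ (by omega)) hN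
  have hN0 : (0 : ℝ) < N := by exact_mod_cast hN1
  -- the phase
  set Q : ℝ[X] := ∑ i, C (h i : ℝ) * P i with hQ
  have hQd : Q.natDegree ≤ k := by
    rw [hQ]
    refine natDegree_sum_le_of_forall_le _ _ fun i _ => ?_
    exact (natDegree_C_mul_le _ _).trans (hP i)
  have hQc : Q.coeff k = ∑ i, h i * (P i).coeff k := by
    rw [hQ, finsetSum_coeff]
    simp only [coeff_C_mul]
  have hPh := Ph_affine k _ _ (Ph_real k Q hQd) n0 d
  have hev : (fun m : ℕ => Q.eval ((n0 + d * m : ℕ) : ℝ)) = fun m : ℕ => ∑ i, h i * (P i).eval ((n0 + d * m : ℕ) : ℝ) := by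
    funext m
    rw [hQ, eval_finsetSum]
    simp only [eval_mul, eval_C]
  rw [hev, hQc] at hPh
  obtain ⟨q, hq1, hq2, a, ha⟩ := hI N ((X : ℝ) ^ e) _ _ hN1 (one_le_pow₀ hXr) hPh hcon.le
  have h1 := hFT h hh (q * (k.factorial * d ^ k)) a (Nat.mul_pos hq1 (Nat.mul_pos (Nat.factorial_pos _) (pow_pos hd _)))
  have h2 : ((q * (k.factorial * d ^ k) : ℕ) : ℝ) * (∑ i, h i * (P i).coeff k) =
      (q : ℝ) * ((d : ℝ) ^ k * ((k.factorial : ℝ) * ∑ i, h i * (P i).coeff k)) := by push_cast; ring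
  rw [h2] at h1
  have h3 : ∑ i, |(h i : ℝ)| ≤ s * (X : ℝ) ^ b := by
    have : ∀ i ∈ (univ : Finset (Fin s)), |(h i : ℝ)| ≤ (X : ℝ) ^ b := by
      intro i _
      have := hhb i
      exact_mod_cast this
    refine (sum_le_card_nsmul _ _ _ this).trans ?_
    simp
  have h4 : ((q * (k.factorial * d ^ k) : ℕ) : ℝ) * ∑ i, |(h i : ℝ)| ≤
      ((c : ℝ) * k.factorial * s) * (X : ℝ) ^ (e * m + k + b) := by
    push_cast
    have hdr : (d : ℝ) ^ k ≤ (X : ℝ) ^ k := by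
      have : (d : ℝ) ≤ X := by exact_mod_cast hdX
      gcongr
    rw [← pow_mul] at hq2
    calc (q : ℝ) * (k.factorial * (d : ℝ) ^ k) * ∑ i, |(h i : ℝ)| ≤
        (c * (X : ℝ) ^ (e * m)) * (k.factorial * (X : ℝ) ^ k) * (s * (X : ℝ) ^ b) := by
          gcongr
      _ = _ := by rw [pow_add, pow_add]; ring
  have h5 : |(q : ℝ) * ((d : ℝ) ^ k * ((k.factorial : ℝ) * ∑ i, h i * (P i).coeff k)) - a| ≤
      c * (X : ℝ) ^ (e * m) / N := by
    refine ha.trans ?_
    rw [← pow_mul]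
    have : (N : ℝ) ≤ (N : ℝ) ^ k := le_self_pow₀ (by exact_mod_cast hN1) (by omega)
    gcongr
  have h0 : 0 ≤ ((q * (k.factorial * d ^ k) : ℕ) : ℝ) * ∑ i, |(h i : ℝ)| := by positivity
  have h6 : c₀ ≤ (((c : ℝ) * k.factorial * s) * (X : ℝ) ^ (e * m + k + b)) ^ τ * (c * (X : ℝ) ^ (e * m) / N) := by
    refine h1.trans ?_
    gcongr
  have h7 : c₀ * N ≤ (((c : ℝ) * k.factorial * s) ^ τ * c) * (X : ℝ) ^ ((e * m + k + b) * τ + e * m) := by
    rw [← mul_div_assoc, le_div_iff₀ hN0] at h6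
    refine h6.trans (le_of_eq ?_)
    rw [mul_pow, ← pow_mul, pow_add]
    ring
  have h8 : ((c : ℝ) * k.factorial * s) ^ τ * c < c₀ * X := by
    have : ((c : ℝ) * k.factorial * s) ^ τ * c / c₀ < X := hX₁.trans_le (by exact_mod_cast (le_max_left _ _).trans hX)
    rw [div_lt_iff₀ hc₀] at this
    linarith
  have h9 : (X : ℝ) ^ ((e * m + k + b) * τ + e * m + 1) ≤ N := by exact_mod_cast hN
  have h10 : c₀ * (X : ℝ) ^ ((e * m + k + b) * τ + e * m + 1) ≤ c₀ * N := by gcongr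
  have h11 : (0 : ℝ) < (X : ℝ) ^ ((e * m + k + b) * τ + e * m) := by positivity
  have h12 : (((c : ℝ) * k.factorial * s) ^ τ * c) * (X : ℝ) ^ ((e * m + k + b) * τ + e * m) <
      (c₀ * X) * (X : ℝ) ^ ((e * m + k + b) * τ + e * m) := mul_lt_mul_of_pos_right h8 h11
  rw [pow_succ] at h10
  linarith

end Pool.Agent.X220.FP
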