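import Pool.Agent.X220.FP.Count
import Pool.Agent.X220.FP.Phase

set_option autoImplicit false

/-! # The family: integers in an interval and a residue class, fractional parts in boxes -/

namespace Pool.Agent.X220.FP

open Finset Polynomial
open Pool.Agent.Helper602.MK (ee)

lemma exists_start (M d r : ℕ) (hd : 1 ≤ d) : ∃ n0, M < n0 ∧ n0 ≤ M + d ∧ n0 ≡ r [MOD d] := by
  refine ⟨M + 1 + (r + (d - 1) * (M + 1)) % d, by omega, ?_, ?_⟩
  · have := Nat.mod_lt (r + (d - 1) * (M + 1)) (show 0 < d by omega)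
    omega
  · have h1 : M + 1 + (r + (d - 1) * (M + 1)) % d ≡ M + 1 + (r + (d - 1) * (M + 1)) [MOD d] :=
      (Nat.ModEq.refl _).add (Nat.mod_modEq _ _)
    refine h1.trans ?_
    have h2 : M + 1 + (r + (d - 1) * (M + 1)) = r + d * (M + 1) := by
      obtain ⟨e, rfl⟩ : ∃ e, d = e + 1 := ⟨d - 1, by omega⟩
      simp only [Nat.add_sub_cancel]
      ring
    rw [h2]
    have : r + d * (M + 1) ≡ r + 0 [MOD d] :=
      (Nat.ModEq.refl _).add ((Nat.modEq_zero_iff_dvd).2 (dvd_mul_right _ _))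
    rwa [Nat.add_zero] at this

open Classical in
theorem fp_class (s k τ : ℕ) (hk : 1 ≤ k) (c₀ : ℝ) (hc₀ : 0 < c₀) : ∃ A X₀ : ℕ, 1 ≤ A ∧ ∀ X : ℕ, X₀ ≤ X →
    ∀ H : ℕ, X ^ A ≤ H → ∀ P : Fin s → ℝ[X], (∀ i, (P i).natDegree ≤ k) → FT c₀ τ (fun i => (P i).coeff k) →
    ∀ u ρ : Fin s → ℝ, (∀ i, 1 / (X : ℝ) ≤ ρ i ∧ ρ i ≤ 1) → ∀ M d r : ℕ, 1 ≤ d → d ≤ X →
    |((((Ioc M (M + H)).filter (fun n : ℕ => ∀ i, Int.fract ((P i).eval (n : ℝ) - u i) < ρ i)).filter
      (fun n => n ≡ r [MOD d])).card : ℝ) - H * (∏ i, ρ i) / d| ≤ H * (∏ i, ρ i) / (X : ℝ) ^ 2 := by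
  set a : ℕ := s + 4 with ha
  set b : ℕ := (s + 1) * a + (s + 4) with hb
  set e : ℕ := a * s + (s + 4) with he
  obtain ⟨A, X₁, hW⟩ := weyl_prog s k τ b e hk c₀ hc₀
  set K : ℝ := s * 3 ^ s + 3 ^ s + s * 2 ^ s with hK
  have hK0 : 0 ≤ K := by rw [hK]; positivity
  refine ⟨A + s + 4, max (max X₁ 2) ⌈4 * K⌉₊, by omega, ?_⟩
  intro X hX H hH P hP hFT u ρ hρ M d r hd hdX
  have hX1 : X₁ ≤ X := ((le_max_left _ _).trans (le_max_left _ _)).trans hX
  have hX2 : 2 ≤ X := ((le_max_right _ _).trans (le_max_left _ _)).trans hX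
  have hXK : 4 * K ≤ X := (Nat.le_ceil _).trans (by exact_mod_cast (le_max_right _ _).trans hX)
  have hXr : (2 : ℝ) ≤ X := by exact_mod_cast hX2
  have hX0 : (0 : ℝ) < X := by linarith
  have hdr : (1 : ℝ) ≤ d := by exact_mod_cast hd
  have hdXr : (d : ℝ) ≤ X := by exact_mod_cast hdX
  have hHX : ((X : ℝ)) ^ (A + s + 4) ≤ H := by exact_mod_cast hH
  have hHd : d ≤ H := by
    refine hdX.trans (le_trans ?_ hH)
    exact Nat.le_self_pow (by omega) X
  obtain ⟨n0, hn1, hn2, hn3⟩ := exists_start M d r hd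
  set N : ℕ := (M + H - n0) / d + 1 with hN
  have hNle : (N : ℝ) ≤ H / d + 1 := by
    have h1 : d * ((M + H - n0) / d) ≤ M + H - n0 := Nat.mul_div_le _ _
    have h2 : d * ((M + H - n0) / d) ≤ H := by omega
    have h3 : (d : ℝ) * (((M + H - n0) / d : ℕ) : ℝ) ≤ H := by exact_mod_cast h2
    rw [hN]; push_cast
    have h4 : (((M + H - n0) / d : ℕ) : ℝ) ≤ H / d := by
      rw [le_div_iff₀ (by linarith)]; linarith
    push_cast at h4
    linarith
  have hNge : (H : ℝ) / d - 1 ≤ N := by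
    have h1 : M + H - n0 < d * ((M + H - n0) / d + 1) := Nat.lt_mul_div_succ _ (by omega)
    have h1' : M + H - n0 < d * N := h1
    have h2 : H ≤ d * N + d := by omega
    have h3 : (H : ℝ) ≤ d * N + d := by exact_mod_cast h2
    have h4 : (H : ℝ) / d ≤ N + 1 := by
      rw [div_le_iff₀ (by linarith)]; linarith
    linarith
  -- the size of N
  have hXAN : X ^ A ≤ N := by
    have h1 : ((X : ℝ)) ^ A ≤ N := by
      have h2 : (X : ℝ) ^ (A + s + 4) / X ≤ H / d := by gcongr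
      have h3 : (X : ℝ) ^ (A + s + 4) / X = X ^ (A + s + 3) := by
        rw [show A + s + 4 = (A + s + 3) + 1 by ring, pow_succ]; field_simp
      have h4 : (X : ℝ) ^ A * 2 ≤ X ^ (A + s + 3) := by
        rw [show A + s + 3 = A + (s + 3) by ring, pow_add]
        apply mul_le_mul_of_nonneg_left _ (by positivity)
        calc (2 : ℝ) ≤ X := hXr
          _ ≤ X ^ (s + 3) := le_self_pow₀ (by linarith) (by omega)
      have h5 : (1 : ℝ) ≤ X ^ A := one_le_pow₀ (by linarith)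
      linarith
    exact_mod_cast h1
  -- the count in terms of m
  have hcard : (((Ioc M (M + H)).filter (fun n : ℕ => ∀ i, Int.fract ((P i).eval (n : ℝ) - u i) < ρ i)).filter
      (fun n => n ≡ r [MOD d])).card =
      ((range N).filter (fun m => ∀ i, Int.fract ((P i).eval ((n0 + d * m : ℕ) : ℝ) - u i) < ρ i)).card := by
    symm
    refine card_bij (fun m _ => n0 + d * m) ?_ ?_ ?_
    · intro m hm
      rw [mem_filter, mem_range] at hm
      rw [mem_filter, mem_filter, mem_Ioc]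
      refine ⟨⟨⟨by omega, ?_⟩, hm.2⟩, ?_⟩
      · have h1 : m ≤ (M + H - n0) / d := by omega
        have h2 : d * m ≤ d * ((M + H - n0) / d) := Nat.mul_le_mul_left _ h1
        have h3 : d * ((M + H - n0) / d) ≤ M + H - n0 := Nat.mul_div_le _ _
        have h4 : n0 ≤ M + H := by omega
        show n0 + d * m ≤ M + H
        omega
      · have : n0 + d * m ≡ r + 0 [MOD d] := hn3.add ((Nat.modEq_zero_iff_dvd).2 (dvd_mul_right _ _))
        simpa using this
    · intro m₁ _ m₂ _ h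
      have h' : d * m₁ = d * m₂ := by simpa using h
      exact Nat.eq_of_mul_eq_mul_left (by omega) h'
    · intro n hn
      rw [mem_filter, mem_filter, mem_Ioc] at hn
      obtain ⟨⟨⟨h1, h2⟩, h3⟩, h4⟩ := hn
      have h5 : n0 ≤ n := by
        by_contra hlt
        have h6 : n0 ≡ n [MOD d] := hn3.trans h4.symm
        have h7 : d ∣ n0 - n := (Nat.modEq_iff_dvd' (by omega)).1 h6.symm
        have h8 := Nat.le_of_dvd (by omega) h7
        omega
      have h6 : d ∣ n - n0 := (Nat.modEq_iff_dvd' h5).1 (hn3.trans h4.symm)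
      obtain ⟨m, hm⟩ := h6
      have h7 : n = n0 + d * m := by omega
      refine ⟨m, ?_, h7.symm⟩
      rw [mem_filter, mem_range]
      refine ⟨?_, by rw [← h7]; exact h3⟩
      have h8 : d * m ≤ M + H - n0 := by omega
      have h9 : m ≤ (M + H - n0) / d := by
        rw [Nat.le_div_iff_mul_le (by omega), mul_comm]; exact h8
      omega
  rw [hcard]
  have hw0 : (0 : ℝ) < 1 / (X : ℝ) ^ a := by positivity
  have hXa : (X : ℝ) ^ 2 ≤ X ^ a := pow_le_pow_right₀ (by linarith) (by omega)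
  have key := count_box s N (X ^ b) (Nat.one_le_pow _ _ (by omega))
    (fun m i => (P i).eval ((n0 + d * m : ℕ) : ℝ)) ((X : ℝ) ^ e) (by positivity)
    (by
      intro h hh hhb
      exact hW X hX1 N hXAN P hP hFT h hh (by
        intro i
        have := hhb i
        push_cast at this
        exact this) n0 d hd hdX) (1 / (X : ℝ) ^ a) hw0 u ρ
    (by
      intro i
      refine ⟨le_trans ?_ (hρ i).1, (hρ i).2⟩
      rw [mul_one_div, div_le_div_iff₀ (by positivity) hX0]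
      nlinarith)
    (by
      rw [div_le_div_iff₀ (by positivity) (by norm_num)]
      nlinarith)
  have hprod0 : 0 ≤ ∏ i, ρ i := prod_nonneg fun i _ => le_trans (by positivity) (hρ i).1
  have hprod1 : ∏ i, ρ i ≤ 1 := prod_le_one (fun i _ => le_trans (by positivity) (hρ i).1) fun i _ => (hρ i).2
  have hprodX : 1 / (X : ℝ) ^ s ≤ ∏ i, ρ i := by
    have : ∏ _i : Fin s, (1 / (X : ℝ)) ≤ ∏ i, ρ i :=
      prod_le_prod (fun i _ => by positivity) fun i _ => (hρ i).1
    rw [prod_const, card_univ, Fintype.card_fin, one_div_pow] at this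
    exact this
  -- the error of count_box
  have hD : (2 + 1 / (1 / (X : ℝ) ^ a)) ^ s ≤ 3 ^ s * X ^ (a * s) := by
    rw [one_div_one_div, pow_mul, ← mul_pow]
    apply pow_le_pow_left₀ (by positivity)
    have : (2 : ℝ) ≤ 2 * X ^ a := by
      have := one_le_pow₀ (n := a) (show (1 : ℝ) ≤ X by linarith)
      linarith
    linarith
  have herr : s * (2 + 1 / (1 / (X : ℝ) ^ a)) ^ s * (1 / (1 / (X : ℝ) ^ a * ((X ^ b : ℕ) : ℝ))) +
      (2 + 1 / (1 / (X : ℝ) ^ a)) ^ s / (X : ℝ) ^ e + s * 2 ^ s * (1 / (X : ℝ) ^ a) ≤ K / X ^ (s + 4) := by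
    have t1 : s * (2 + 1 / (1 / (X : ℝ) ^ a)) ^ s * (1 / (1 / (X : ℝ) ^ a * ((X ^ b : ℕ) : ℝ))) ≤
        s * 3 ^ s / X ^ (s + 4) := by
      calc s * (2 + 1 / (1 / (X : ℝ) ^ a)) ^ s * (1 / (1 / (X : ℝ) ^ a * ((X ^ b : ℕ) : ℝ))) ≤
          s * (3 ^ s * X ^ (a * s)) * (1 / (1 / (X : ℝ) ^ a * ((X ^ b : ℕ) : ℝ))) := by gcongr
        _ = _ := by
          have hbe : (X : ℝ) ^ b = X ^ (a * s) * X ^ a * X ^ (s + 4) := by
            rw [hb, ← pow_add, ← pow_add]; congr 1; ring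
          push_cast
          rw [hbe]
          have g1 : (X : ℝ) ^ a ≠ 0 := by positivity
          have g2 : (X : ℝ) ^ (a * s) ≠ 0 := by positivity
          have g3 : (X : ℝ) ^ (s + 4) ≠ 0 := by positivity
          generalize (X : ℝ) ^ a = p1 at g1 ⊢
          generalize (X : ℝ) ^ (a * s) = p2 at g2 ⊢
          generalize (X : ℝ) ^ (s + 4) = p3 at g3 ⊢
          field_simp
    have t2 : (2 + 1 / (1 / (X : ℝ) ^ a)) ^ s / (X : ℝ) ^ e ≤ 3 ^ s / X ^ (s + 4) := by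
      calc (2 + 1 / (1 / (X : ℝ) ^ a)) ^ s / (X : ℝ) ^ e ≤ 3 ^ s * X ^ (a * s) / (X : ℝ) ^ e := by gcongr
        _ = _ := by
          rw [he, pow_add]
          field_simp
    have t3 : s * 2 ^ s * (1 / (X : ℝ) ^ a) = s * 2 ^ s / X ^ (s + 4) := by
      rw [mul_one_div]
    rw [t3, hK, add_div, add_div]
    linarith
  have hmain := key.trans (mul_le_mul_of_nonneg_left herr (Nat.cast_nonneg N))
  have hH0 : (0 : ℝ) ≤ H := by positivity
  have hH1 : (1 : ℝ) ≤ H / d := by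
    rw [le_div_iff₀ (by linarith), one_mul]; exact_mod_cast hHd
  have hHdle : (H : ℝ) / d ≤ H := div_le_self hH0 hdr
  have hN2 : (N : ℝ) ≤ 2 * H := by linarith
  have h1 : |(N : ℝ) * ∏ i, ρ i - H * (∏ i, ρ i) / d| ≤ 1 := by
    have e1 : (N : ℝ) * ∏ i, ρ i - H * (∏ i, ρ i) / d = (N - H / d) * ∏ i, ρ i := by ring
    rw [e1, abs_mul, abs_of_nonneg hprod0]
    have h2 : |(N : ℝ) - H / d| ≤ 1 := by
      rw [abs_le]; constructor <;> linarith
    calc |(N : ℝ) - H / d| * ∏ i, ρ i ≤ 1 * 1 := by gcongr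
      _ = 1 := one_mul 1
  have h2 : (N : ℝ) * (K / X ^ (s + 4)) ≤ H / X ^ (s + 2) / 2 := by
    calc (N : ℝ) * (K / X ^ (s + 4)) ≤ 2 * H * (K / X ^ (s + 4)) := by gcongr
      _ = H * (4 * K) / X ^ (s + 4) / 2 := by ring
      _ ≤ H * X ^ 2 / X ^ (s + 4) / 2 := by
          have : 4 * K ≤ (X : ℝ) ^ 2 := by nlinarith
          gcongr
      _ = H / X ^ (s + 2) / 2 := by
          rw [show s + 4 = (s + 2) + 2 by ring, pow_add _ (s + 2) 2]
          field_simp
  have h3 : (1 : ℝ) ≤ H / X ^ (s + 2) / 2 := by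
    rw [le_div_iff₀ (by norm_num), le_div_iff₀ (by positivity), one_mul]
    calc 2 * (X : ℝ) ^ (s + 2) ≤ X ^ (A + 2) * X ^ (s + 2) := by
          apply mul_le_mul_of_nonneg_right _ (by positivity)
          calc (2 : ℝ) ≤ X := hXr
            _ ≤ X ^ (A + 2) := le_self_pow₀ (by linarith) (by omega)
      _ = X ^ (A + s + 4) := by rw [← pow_add]; congr 1; ring
      _ ≤ H := hHX
  have h4 : (H : ℝ) / X ^ (s + 2) ≤ H * (∏ i, ρ i) / X ^ 2 := by
    calc (H : ℝ) / X ^ (s + 2) = H * (1 / X ^ s) / X ^ 2 := by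
          rw [pow_add]; field_simp
      _ ≤ H * (∏ i, ρ i) / X ^ 2 := by gcongr
  refine (abs_sub_le _ ((N : ℝ) * ∏ i, ρ i) _).trans ?_
  linarith

end Pool.Agent.X220.FP
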