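import Mathlib
import Pool.Agent.X121.AB.ET
import Pool.Agent.H373R2.NB.Weyl

set_option autoImplicit false

/-! # Trigonometric majorants and minorants of an interval modulo one -/

namespace Pool.Agent.X220.FP

open Finset
open Pool.Agent.X121.AB (be be_approx Pn fract_sub_eq)
open Pool.Agent.Helper602.MK (ee)

lemma be_sub {w : ℝ} (h0 : 0 ≤ w) (h1 : w ≤ 1) (s : ℝ) :
    be (s - w) - be s - w ^ 2 = -(2 * w) * (Int.fract s - 1 / 2) - 2 * max 0 (w - Int.fract s) := by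
  unfold be
  rw [fract_sub_eq h0 h1 s]
  split_ifs with h
  · rw [max_eq_left (by linarith)]; ring
  · rw [max_eq_right (by linarith)]; ring

lemma fract_add_eq {w : ℝ} (h0 : 0 ≤ w) (h1 : w ≤ 1) (t : ℝ) :
    Int.fract (t + w) = if Int.fract t + w < 1 then Int.fract t + w else Int.fract t + w - 1 := by
  have f0 := Int.fract_nonneg t
  have f1 := Int.fract_lt_one t
  have e := Int.fract_add_floor t
  split_ifs with h
  · rw [Int.fract_eq_iff]
    exact ⟨by linarith, h, ⌊t⌋, by linarith⟩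
  · rw [Int.fract_eq_iff]
    refine ⟨by linarith, by linarith, ⌊t⌋ + 1, ?_⟩
    push_cast
    linarith

lemma be_add {w : ℝ} (h0 : 0 ≤ w) (h1 : w ≤ 1) (s : ℝ) :
    be s - be (s + w) + w ^ 2 = -(2 * w) * (Int.fract s - 1 / 2) + 2 * max 0 (Int.fract s + w - 1) := by
  unfold be
  rw [fract_add_eq h0 h1 s]
  split_ifs with h
  · rw [max_eq_left (by linarith)]; ring
  · rw [max_eq_right (by linarith)]; ring

/-- the indicator of the interval `[u, u + ρ)` modulo one -/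
noncomputable def I1 (u ρ t : ℝ) : ℝ := if Int.fract (t - u) < ρ then 1 else 0

/-- the majorant -/
noncomputable def up (w u ρ t : ℝ) : ℝ :=
  ρ + w + (be (t - u) - be (t - u + w) - be (t - u - ρ - w) + be (t - u - ρ)) / (2 * w)

/-- the minorant -/
noncomputable def lo (w u ρ t : ℝ) : ℝ :=
  ρ - w + (be (t - u - w) - be (t - u) - be (t - u - ρ) + be (t - u - ρ + w)) / (2 * w)

lemma ind_eq {u ρ t : ℝ} (h0 : 0 ≤ ρ) (h1 : ρ ≤ 1) :
    I1 u ρ t = ρ - (Int.fract (t - u) - 1 / 2) + (Int.fract (t - u - ρ) - 1 / 2) := by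
  unfold I1
  rw [fract_sub_eq h0 h1 (t - u)]
  split_ifs with h h' h'
  · linarith
  · ring
  · ring
  · linarith

lemma lo_eq {w u ρ t : ℝ} (hw : 0 < w) (hw1 : w ≤ 1) (h0 : 0 ≤ ρ) (h1 : ρ ≤ 1) :
    lo w u ρ t = I1 u ρ t - max 0 (w - Int.fract (t - u)) / w - max 0 (Int.fract (t - u - ρ) + w - 1) / w := by
  have e1 := be_sub hw.le hw1 (t - u)
  have e2 := be_add hw.le hw1 (t - u - ρ)
  rw [ind_eq h0 h1]
  have e3 : be (t - u - w) - be (t - u) - be (t - u - ρ) + be (t - u - ρ + w) =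
      2 * w ^ 2 + (-(2 * w) * (Int.fract (t - u) - 1 / 2) - 2 * max 0 (w - Int.fract (t - u))) -
      (-(2 * w) * (Int.fract (t - u - ρ) - 1 / 2) + 2 * max 0 (Int.fract (t - u - ρ) + w - 1)) := by
    rw [← e1, ← e2]; ring
  unfold lo
  rw [e3]
  field_simp
  ring

lemma up_eq {w u ρ t : ℝ} (hw : 0 < w) (hw1 : w ≤ 1) (h0 : 0 ≤ ρ) (h1 : ρ ≤ 1) :
    up w u ρ t = I1 u ρ t + max 0 (Int.fract (t - u) + w - 1) / w + max 0 (w - Int.fract (t - u - ρ)) / w := by
  have e1 := be_add hw.le hw1 (t - u)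
  have e2 := be_sub hw.le hw1 (t - u - ρ)
  rw [ind_eq h0 h1]
  have e3 : be (t - u) - be (t - u + w) - be (t - u - ρ - w) + be (t - u - ρ) =
      -(2 * w ^ 2) + (-(2 * w) * (Int.fract (t - u) - 1 / 2) + 2 * max 0 (Int.fract (t - u) + w - 1)) -
      (-(2 * w) * (Int.fract (t - u - ρ) - 1 / 2) - 2 * max 0 (w - Int.fract (t - u - ρ))) := by
    rw [← e1, ← e2]; ring
  unfold up
  rw [e3]
  field_simp
  ring

lemma ind_le_up {w u ρ t : ℝ} (hw : 0 < w) (hw1 : w ≤ 1) (h0 : 0 ≤ ρ) (h1 : ρ ≤ 1) :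
    I1 u ρ t ≤ up w u ρ t := by
  rw [up_eq hw hw1 h0 h1]
  have : 0 ≤ max 0 (Int.fract (t - u) + w - 1) / w := div_nonneg (le_max_left _ _) hw.le
  have : 0 ≤ max 0 (w - Int.fract (t - u - ρ)) / w := div_nonneg (le_max_left _ _) hw.le
  linarith

lemma lo_le_ind {w u ρ t : ℝ} (hw : 0 < w) (hw1 : w ≤ 1) (h0 : 0 ≤ ρ) (h1 : ρ ≤ 1) :
    lo w u ρ t ≤ I1 u ρ t := by
  rw [lo_eq hw hw1 h0 h1]
  have : 0 ≤ max 0 (w - Int.fract (t - u)) / w := div_nonneg (le_max_left _ _) hw.le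
  have : 0 ≤ max 0 (Int.fract (t - u - ρ) + w - 1) / w := div_nonneg (le_max_left _ _) hw.le
  linarith

lemma ind_nonneg (u ρ t : ℝ) : 0 ≤ I1 u ρ t := by
  unfold I1; split_ifs <;> norm_num

lemma ind_le_one (u ρ t : ℝ) : I1 u ρ t ≤ 1 := by
  unfold I1; split_ifs <;> norm_num

lemma up_le {w u ρ t : ℝ} (hw : 0 < w) (hw1 : w ≤ 1) (h0 : 0 ≤ ρ) (h1 : ρ ≤ 1) : up w u ρ t ≤ 3 := by
  rw [up_eq hw hw1 h0 h1]
  have f1 := Int.fract_lt_one (t - u)
  have f2 := Int.fract_nonneg (t - u - ρ)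
  have a1 : max 0 (Int.fract (t - u) + w - 1) / w ≤ 1 := by
    rw [div_le_one hw]; exact max_le hw.le (by linarith)
  have a2 : max 0 (w - Int.fract (t - u - ρ)) / w ≤ 1 := by
    rw [div_le_one hw]; exact max_le hw.le (by linarith)
  linarith [ind_le_one u ρ t]

lemma lo_nonneg {w u ρ t : ℝ} (hw : 0 < w) (hwρ : 2 * w ≤ ρ) (h1 : ρ ≤ 1) : 0 ≤ lo w u ρ t := by
  rw [lo_eq hw (by linarith) (by linarith) h1]
  have f0 := Int.fract_nonneg (t - u)
  have f1 := Int.fract_lt_one (t - u)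
  have hfr := fract_sub_eq (w := ρ) (by linarith) h1 (t - u)
  unfold I1
  rcases lt_or_ge (Int.fract (t - u)) ρ with h2 | h2
  · rw [if_neg (not_le.2 h2)] at hfr
    rw [if_pos h2]
    rcases le_total (Int.fract (t - u)) w with h4 | h4
    · have e2 : max 0 (Int.fract (t - u - ρ) + w - 1) = 0 := by
        rw [hfr]; exact max_eq_left (by linarith)
      have e1 : max 0 (w - Int.fract (t - u)) / w ≤ 1 := by
        rw [div_le_one hw]; exact max_le hw.le (by linarith)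
      rw [e2]; simp only [zero_div, sub_zero]; linarith
    · have e2 : max 0 (w - Int.fract (t - u)) = 0 := max_eq_left (by linarith)
      have e1 : max 0 (Int.fract (t - u - ρ) + w - 1) / w ≤ 1 := by
        rw [div_le_one hw, hfr]; exact max_le hw.le (by linarith)
      rw [e2]; simp only [zero_div, sub_zero]; linarith
  · rw [if_pos h2] at hfr
    rw [if_neg (not_lt.2 h2), hfr, max_eq_left (by linarith), max_eq_left (by linarith)]
    simp

/-! ### trigonometric polynomials -/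

/-- the coefficients of a trigonometric polynomial close to `κ + (∑ σ_k be (t - a_k)) / (2 w)` -/
noncomputable def cf (κ w : ℝ) (σ a : Fin 4 → ℝ) (j : ℤ) : ℂ :=
  (if j = 0 then (κ : ℂ) else 0) +
    ∑ k, ((σ k / (2 * w) * (1 / (2 * Real.pi ^ 2 * (j : ℝ) ^ 2)) : ℝ) : ℂ) * ee (-(j * a k))

lemma ee_norm (x : ℝ) : ‖ee x‖ = 1 := by
  unfold ee
  rw [show (2 * Real.pi * x * Complex.I : ℂ) = ((2 * Real.pi * x : ℝ) : ℂ) * Complex.I by push_cast; ring]
  exact Complex.norm_exp_ofReal_mul_I _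

lemma ee_add' (x y : ℝ) : ee (x + y) = ee x * ee y := by
  unfold ee
  rw [← Complex.exp_add]
  congr 1
  push_cast
  ring

lemma ee_zero' : ee 0 = 1 := by unfold ee; simp

lemma cos_ee (x : ℝ) : ((Real.cos (2 * Real.pi * x) : ℝ) : ℂ) = (ee x + ee (-x)) / 2 := by
  rw [Complex.ofReal_cos, Complex.cos]
  unfold ee
  congr 3 <;> · push_cast; ring_nf

lemma Pn_ee (L : ℕ) (t : ℝ) : ((Pn L t : ℝ) : ℂ) =
    ∑ j ∈ Icc (-(L : ℤ)) L, ((1 / (2 * (j : ℝ) ^ 2) : ℝ) : ℂ) * ee (j * t) := by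
  have h1 : Icc (-(L : ℤ)) L = (Icc (1 : ℤ) L ∪ {0}) ∪ Icc (-(L : ℤ)) (-1) := by
    ext j; simp only [mem_Icc, mem_union, mem_singleton]; omega
  rw [h1, sum_union, sum_union, sum_singleton]
  · have h2 : ∑ j ∈ Icc (1 : ℤ) L, ((1 / (2 * (j : ℝ) ^ 2) : ℝ) : ℂ) * ee (j * t) =
        ∑ n ∈ Icc 1 L, ((1 / (2 * (n : ℝ) ^ 2) : ℝ) : ℂ) * ee (n * t) := by
      symm
      apply sum_bij (fun (n : ℕ) _ => (n : ℤ))
      · intro n hn; rw [mem_Icc] at hn ⊢; omega
      · intro a _ b _ h; exact_mod_cast h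
      · intro j hj; rw [mem_Icc] at hj
        exact ⟨j.toNat, by rw [mem_Icc]; omega, by omega⟩
      · intro n _; push_cast; rfl
    have h3 : ∑ j ∈ Icc (-(L : ℤ)) (-1), ((1 / (2 * (j : ℝ) ^ 2) : ℝ) : ℂ) * ee (j * t) =
        ∑ n ∈ Icc 1 L, ((1 / (2 * (n : ℝ) ^ 2) : ℝ) : ℂ) * ee (-(n * t)) := by
      symm
      apply sum_bij (fun (n : ℕ) _ => -(n : ℤ))
      · intro n hn; rw [mem_Icc] at hn ⊢; omega
      · intro a _ b _ h; simpa using h
      · intro j hj; rw [mem_Icc] at hj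
        exact ⟨(-j).toNat, by rw [mem_Icc]; omega, by omega⟩
      · intro n _
        push_cast
        rw [neg_sq]
        congr 2
        ring
    rw [h2, h3]
    simp only [Int.cast_zero, ne_eq, OfNat.ofNat_ne_zero, not_false_eq_true, zero_pow, mul_zero, div_zero,
      Complex.ofReal_zero, zero_mul, add_zero]
    have hP : Pn L t = ∑ n ∈ Icc 1 L, 1 / (n : ℝ) ^ 2 * Real.cos (2 * Real.pi * n * t) := by
      unfold Pn
      have hr : range (L + 1) = insert 0 (Icc 1 L) := by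
        ext n; simp only [mem_range, mem_insert, mem_Icc]; omega
      rw [hr, sum_insert (by simp)]
      simp
    rw [hP, ← Finset.sum_add_distrib, Complex.ofReal_sum]
    apply Finset.sum_congr rfl
    intro n _
    have h4 := cos_ee (n * t)
    rw [Complex.ofReal_mul, show (2 * Real.pi * n * t : ℝ) = 2 * Real.pi * (n * t) by ring, h4]
    push_cast
    ring
  · rw [disjoint_singleton_right, mem_Icc]; omega
  · rw [disjoint_left]
    intro j hj hj'
    simp only [mem_union, mem_Icc, mem_singleton] at hj hj'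
    omega

end Pool.Agent.X220.FP
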