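import Pool.Agent.X220.FP.Kernel

set_option autoImplicit false

/-! # Trigonometric approximation, products -/

namespace Pool.Agent.X220.FP

open Finset
open Pool.Agent.X121.AB (be be_approx Pn fract_sub_eq)
open Pool.Agent.Helper602.MK (ee)

lemma cf_zero (κ w : ℝ) (σ a : Fin 4 → ℝ) : cf κ w σ a 0 = κ := by
  unfold cf; simp

lemma sum_cf (L : ℕ) (κ w : ℝ) (σ a : Fin 4 → ℝ) (t : ℝ) :
    ∑ j ∈ Icc (-(L : ℤ)) L, cf κ w σ a j * ee (j * t) =
      ((κ + (∑ k, σ k * (Pn L (t - a k) / Real.pi ^ 2)) / (2 * w) : ℝ) : ℂ) := by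
  unfold cf
  simp only [add_mul, sum_add_distrib, sum_mul]
  rw [sum_comm]
  have h1 : ∑ j ∈ Icc (-(L : ℤ)) L, (if j = 0 then (κ : ℂ) else 0) * ee (j * t) = κ := by
    rw [sum_eq_single 0]
    · simp [ee_zero']
    · intro b _ hb; rw [if_neg hb, zero_mul]
    · intro h; exfalso; apply h; rw [mem_Icc]; omega
  rw [h1]
  push_cast
  rw [sum_div]
  congr 1
  apply sum_congr rfl
  intro k _
  rw [Pn_ee, sum_div, mul_sum, sum_div]
  apply sum_congr rfl
  intro j _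
  rw [show (j : ℝ) * (t - a k) = -(j * a k) + j * t by ring, ee_add']
  push_cast
  by_cases hj : j = 0
  · subst hj; simp
  · have hj' : (j : ℂ) ≠ 0 := by exact_mod_cast hj
    have hpi : (Real.pi : ℂ) ≠ 0 := by exact_mod_cast Real.pi_ne_zero
    by_cases hw : w = 0
    · subst hw; simp
    · have hw' : (w : ℂ) ≠ 0 := by exact_mod_cast hw
      field_simp

lemma pi_sq : (9 : ℝ) < Real.pi ^ 2 := by nlinarith [Real.pi_gt_three]

theorem cf_approx {L : ℕ} (hL : 1 ≤ L) {w : ℝ} (hw : 0 < w) (κ : ℝ) (σ a : Fin 4 → ℝ) (hσ : ∀ k, |σ k| = 1) (t : ℝ) :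
    ‖((κ + (∑ k, σ k * be (t - a k)) / (2 * w) : ℝ) : ℂ) - ∑ j ∈ Icc (-(L : ℤ)) L, cf κ w σ a j * ee (j * t)‖ ≤
      1 / (w * L) := by
  rw [sum_cf, ← Complex.ofReal_sub, Complex.norm_real, Real.norm_eq_abs]
  have hL0 : (0 : ℝ) < L := by exact_mod_cast hL
  have hpi := pi_sq
  have e1 : κ + (∑ k, σ k * be (t - a k)) / (2 * w) - (κ + (∑ k, σ k * (Pn L (t - a k) / Real.pi ^ 2)) / (2 * w)) =
      (∑ k, σ k * ((Real.pi ^ 2 * be (t - a k) - Pn L (t - a k)) / Real.pi ^ 2)) / (2 * w) := by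
    have : ∀ k, σ k * ((Real.pi ^ 2 * be (t - a k) - Pn L (t - a k)) / Real.pi ^ 2) =
        σ k * be (t - a k) - σ k * (Pn L (t - a k) / Real.pi ^ 2) := by
      intro k; field_simp
    simp only [this, sum_sub_distrib]
    ring
  rw [e1, abs_div, abs_of_pos (by positivity : (0 : ℝ) < 2 * w)]
  have e2 : |∑ k, σ k * ((Real.pi ^ 2 * be (t - a k) - Pn L (t - a k)) / Real.pi ^ 2)| ≤ 4 * (1 / L / 9) := by
    refine (abs_sum_le_sum_abs _ _).trans ?_
    have : ∀ k ∈ (univ : Finset (Fin 4)), |σ k * ((Real.pi ^ 2 * be (t - a k) - Pn L (t - a k)) / Real.pi ^ 2)| ≤ 1 / L / 9 := by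
      intro k _
      rw [abs_mul, hσ, one_mul, abs_div, abs_of_pos (by positivity : (0 : ℝ) < Real.pi ^ 2)]
      exact div_le_div₀ (by positivity) (be_approx hL _) (by norm_num) hpi.le
    refine (sum_le_card_nsmul _ _ _ this).trans ?_
    simp
  calc _ ≤ 4 * (1 / (L : ℝ) / 9) / (2 * w) := by gcongr
    _ ≤ 1 / (w * L) := by
        rw [div_le_div_iff₀ (by positivity) (by positivity)]
        field_simp
        norm_num

lemma sum_inv_sq (L : ℕ) : ∑ j ∈ Icc (-(L : ℤ)) L, 1 / (j : ℝ) ^ 2 ≤ 4 := by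
  have h1 : Icc (-(L : ℤ)) L = (Icc (1 : ℤ) L ∪ {0}) ∪ Icc (-(L : ℤ)) (-1) := by
    ext j; simp only [mem_Icc, mem_union, mem_singleton]; omega
  have h0 : ∑ n ∈ Icc 1 L, 1 / (n : ℝ) ^ 2 ≤ 2 := by
    have := sum_Ioo_inv_sq_le (α := ℝ) 0 (L + 1)
    have e : Ioo 0 (L + 1) = Icc 1 L := by ext n; simp only [mem_Ioo, mem_Icc]; omega
    rw [e] at this
    simpa using this
  rw [h1, sum_union, sum_union, sum_singleton]
  · have h2 : ∑ j ∈ Icc (1 : ℤ) L, 1 / (j : ℝ) ^ 2 = ∑ n ∈ Icc 1 L, 1 / (n : ℝ) ^ 2 := by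
      symm
      apply sum_bij (fun (n : ℕ) _ => (n : ℤ))
      · intro n hn; rw [mem_Icc] at hn ⊢; omega
      · intro a _ b _ h; exact_mod_cast h
      · intro j hj; rw [mem_Icc] at hj
        exact ⟨j.toNat, by rw [mem_Icc]; omega, by omega⟩
      · intro n _; push_cast; rfl
    have h3 : ∑ j ∈ Icc (-(L : ℤ)) (-1), 1 / (j : ℝ) ^ 2 = ∑ n ∈ Icc 1 L, 1 / (n : ℝ) ^ 2 := by
      symm
      apply sum_bij (fun (n : ℕ) _ => -(n : ℤ))
      · intro n hn; rw [mem_Icc] at hn ⊢; omega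
      · intro a _ b _ h; simpa using h
      · intro j hj; rw [mem_Icc] at hj
        exact ⟨(-j).toNat, by rw [mem_Icc]; omega, by omega⟩
      · intro n _
        push_cast
        rw [neg_sq]
    rw [h2, h3]
    simp
    simp at h0
    linarith
  · rw [disjoint_singleton_right, mem_Icc]; omega
  · rw [disjoint_left]
    intro j hj hj'
    simp only [mem_union, mem_Icc, mem_singleton] at hj hj'
    omega

theorem cf_norm (L : ℕ) {w : ℝ} (hw : 0 < w) (κ : ℝ) (σ a : Fin 4 → ℝ) (hσ : ∀ k, |σ k| = 1) :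
    ∑ j ∈ Icc (-(L : ℤ)) L, ‖cf κ w σ a j‖ ≤ |κ| + 1 / w := by
  have hpi := pi_sq
  have h1 : ∀ j ∈ Icc (-(L : ℤ)) L, ‖cf κ w σ a j‖ ≤ (if j = 0 then |κ| else 0) + 1 / (9 * w) * (1 / (j : ℝ) ^ 2) := by
    intro j _
    unfold cf
    refine (norm_add_le _ _).trans ?_
    refine add_le_add ?_ ?_
    · split_ifs
      · rw [Complex.norm_real, Real.norm_eq_abs]
      · simp
    · refine (norm_sum_le _ _).trans ?_
      have : ∀ k ∈ (univ : Finset (Fin 4)), ‖((σ k / (2 * w) * (1 / (2 * Real.pi ^ 2 * (j : ℝ) ^ 2)) : ℝ) : ℂ) * ee (-(j * a k))‖ ≤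
          1 / (2 * w) * (1 / (18 * (j : ℝ) ^ 2)) := by
        intro k _
        rw [norm_mul, ee_norm, mul_one, Complex.norm_real, Real.norm_eq_abs, abs_mul, abs_div, hσ,
          abs_of_pos (by positivity : (0 : ℝ) < 2 * w), abs_of_nonneg (by positivity : (0 : ℝ) ≤ 1 / (2 * Real.pi ^ 2 * (j : ℝ) ^ 2))]
        by_cases hj : j = 0
        · subst hj; simp
        · have hj' : (0 : ℝ) < (j : ℝ) ^ 2 := by
            have : (j : ℝ) ≠ 0 := by exact_mod_cast hj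
            positivity
          gcongr
          nlinarith
      refine (sum_le_card_nsmul _ _ _ this).trans ?_
      rw [card_univ, Fintype.card_fin, nsmul_eq_mul]
      by_cases hj : j = 0
      · subst hj; simp
      · have hj' : (j : ℝ) ≠ 0 := by exact_mod_cast hj
        apply le_of_eq
        field_simp
        norm_num
  refine (sum_le_sum h1).trans ?_
  rw [sum_add_distrib, ← mul_sum]
  have h2 : ∑ j ∈ Icc (-(L : ℤ)) L, (if j = 0 then |κ| else 0) ≤ |κ| := by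
    rw [sum_ite_eq']
    split_ifs
    · exact le_rfl
    · exact abs_nonneg _
  have h3 := sum_inv_sq L
  have h4 : 1 / (9 * w) * ∑ j ∈ Icc (-(L : ℤ)) L, 1 / (j : ℝ) ^ 2 ≤ 1 / w := by
    calc _ ≤ 1 / (9 * w) * 4 := by gcongr
      _ ≤ 1 / w := by
        rw [div_mul_eq_mul_div, div_le_div_iff₀ (by positivity) hw]; nlinarith
  linarith

/-- products of approximations -/
lemma prod_close {ι : Type*} (S : Finset ι) (f g : ι → ℂ) {D ε : ℝ} (hD : 1 ≤ D) (hε : 0 ≤ ε)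
    (hf : ∀ i ∈ S, ‖f i‖ ≤ D) (hg : ∀ i ∈ S, ‖g i‖ ≤ D) (h : ∀ i ∈ S, ‖f i - g i‖ ≤ ε) :
    ‖∏ i ∈ S, f i - ∏ i ∈ S, g i‖ ≤ S.card * D ^ S.card * ε := by
  classical
  induction S using Finset.induction_on with
  | empty => simp
  | insert i S hi ih =>
    rw [prod_insert hi, prod_insert hi, card_insert_of_notMem hi]
    have ih' := ih (fun j hj => hf j (mem_insert_of_mem hj)) (fun j hj => hg j (mem_insert_of_mem hj))
      (fun j hj => h j (mem_insert_of_mem hj))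
    have hD0 : 0 ≤ D := by linarith
    have e : f i * ∏ j ∈ S, f j - g i * ∏ j ∈ S, g j =
        (f i - g i) * ∏ j ∈ S, f j + g i * (∏ j ∈ S, f j - ∏ j ∈ S, g j) := by ring
    rw [e]
    refine (norm_add_le _ _).trans ?_
    rw [norm_mul, norm_mul]
    have h1 : ‖∏ j ∈ S, f j‖ ≤ D ^ S.card := by
      rw [norm_prod]
      refine (prod_le_prod (fun j _ => norm_nonneg _) fun j hj => hf j (mem_insert_of_mem hj)).trans ?_
      rw [prod_const]
    have h2 := h i (mem_insert_self _ _)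
    have h3 := hg i (mem_insert_self _ _)
    have h4 : 0 ≤ D ^ S.card := by positivity
    calc ‖f i - g i‖ * ‖∏ j ∈ S, f j‖ + ‖g i‖ * ‖∏ j ∈ S, f j - ∏ j ∈ S, g j‖ ≤
        ε * D ^ S.card + D * (S.card * D ^ S.card * ε) := by gcongr
      _ ≤ ε * D ^ (S.card + 1) + D * (S.card * D ^ S.card * ε) := by
        gcongr
        omega
      _ = ((S.card + 1 : ℕ) : ℝ) * D ^ (S.card + 1) * ε := by push_cast; ring

end Pool.Agent.X220.FP
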